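import Mathlib
import Pool.Agent.Helper69.MC.StA

/-!
# Project MC, module HPL: regular points where the surface is on one side of a horizontal plane
-/

set_option autoImplicit false

open Set Topology Filter MeasureTheory
open Pool.Agent.Helper31.CY Pool.Agent.Helper69.MF Pool.Agent.Helper69.MC

namespace Pool.Agent.Helper70.MC

lemma hpl_coord (x y : E3) (i : Fin 3) : |x i - y i| ≤ dist x y := by
  rw [EuclideanSpace.dist_eq]
  apply Real.le_sqrt_of_sq_le
  have h1 : |x i - y i| ^ 2 = dist (x i) (y i) ^ 2 := by rw [Real.dist_eq]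
  rw [h1]
  exact Finset.single_le_sum (f := fun j => dist (x j) (y j) ^ 2) (fun j _ => sq_nonneg _)
    (Finset.mem_univ i)

lemma hpl_tcn (S : Set E3) (p v : E3) (hv : v ∈ TCn S p) (σ : ℝ)
    (h : ∃ r : ℝ, 0 < r ∧ ∀ x ∈ S, dist x p < r → 0 ≤ σ * (x 2 - p 2)) : 0 ≤ σ * v 2 := by
  obtain ⟨x, t, hx, ht, hxp, hxt⟩ := hv
  obtain ⟨r, hr, h⟩ := h
  have h1 : Tendsto (fun n => σ * (t n • (x n - p)) 2) atTop (𝓝 (σ * v 2)) := by
    have hc : Continuous (fun w : E3 => σ * w 2) := by fun_prop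
    exact (hc.tendsto v).comp hxt
  have h2 : ∀ᶠ n in atTop, dist (x n) p < r := by
    have := Metric.tendsto_nhds.1 hxp r hr
    exact this
  refine ge_of_tendsto h1 ?_
  filter_upwards [h2] with n hn
  have h3 := h (x n) (hx n) hn
  have h4 : σ * (t n • (x n - p)) 2 = t n * (σ * (x n 2 - p 2)) := by
    simp only [PiLp.smul_apply, PiLp.sub_apply, smul_eq_mul]
    ring
  rw [h4]
  exact mul_nonneg (ht n).le h3

lemma hpl_D1n (u : ℝ × ℝ → ℝ) : D1 (fun w => - u w) = fun w => - D1 u w := by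
  funext w
  unfold D1
  rw [fderiv_fun_neg]
  rfl

lemma hpl_D2n (u : ℝ × ℝ → ℝ) : D2 (fun w => - u w) = fun w => - D2 u w := by
  funext w
  unfold D2
  rw [fderiv_fun_neg]
  rfl

theorem hHPL : StTC2 → StGRM → StSMX → StHPL := by
  intro hTC2 hGRM hSMX S p hp hreg halt
  -- uniform form of the alternative
  obtain ⟨σ, hσ, R, hR, hside⟩ : ∃ σ : ℝ, (σ = 1 ∨ σ = -1) ∧ ∃ r : ℝ, 0 < r ∧
      ∀ x ∈ S, dist x p < r → 0 ≤ σ * (x 2 - p 2) := by
    rcases halt with ⟨r, hr, h⟩ | ⟨r, hr, h⟩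
    · exact ⟨1, Or.inl rfl, r, hr, fun x hx hd => by have := h x hx hd; linarith⟩
    · exact ⟨-1, Or.inr rfl, r, hr, fun x hx hd => by have := h x hx hd; linarith⟩
  -- the tangent plane is horizontal
  have hflat : ∀ v ∈ TCn S p, v 2 = 0 := by
    intro v hv
    obtain ⟨f, U, hU, hpU, hf, hdf, hS, -⟩ := hreg
    have hf1 : ContDiffOn ℝ 1 f U := hf.of_le (by norm_num)
    have hiff := hTC2 S p f U hU hpU hf1 (hdf p hpU) ((hS p hpU).1 hp) hS
    have hnv : -v ∈ TCn S p := by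
      rw [hiff, map_neg, (hiff v).1 hv, neg_zero]
    have h1 := hpl_tcn S p v hv σ ⟨R, hR, hside⟩
    have h2 := hpl_tcn S p (-v) hnv σ ⟨R, hR, hside⟩
    have h3 : (-v) 2 = - v 2 := by simp
    rw [h3] at h2
    rcases hσ with rfl | rfl <;> linarith
  obtain ⟨u, V, r, hV, hqV, hr, hu, huq, hpde, hur, hgr⟩ := hGRM S p hp hreg hflat
  set q : ℝ × ℝ := (p 0, p 1) with hq
  -- the graph map
  have hgc : ContinuousOn (fun w : ℝ × ℝ => pt w.1 w.2 (u w)) V := by
    have hcu : ContinuousOn u V := hu.continuousOn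
    unfold pt
    apply (PiLp.continuous_toLp 2 (fun _ : Fin 3 => ℝ)).comp_continuousOn
    rw [continuousOn_pi]
    intro i
    fin_cases i
    · exact continuous_fst.continuousOn
    · exact continuous_snd.continuousOn
    · exact hcu
  have hV' : IsOpen (V ∩ (fun w : ℝ × ℝ => pt w.1 w.2 (u w)) ⁻¹' (Metric.ball p R)) :=
    hgc.isOpen_inter_preimage hV Metric.isOpen_ball
  have hptq : pt q.1 q.2 (u q) = p := by
    rw [huq, hq]
    ext i
    fin_cases i <;> simp [pt]
  have hqV' : q ∈ V ∩ (fun w : ℝ × ℝ => pt w.1 w.2 (u w)) ⁻¹' (Metric.ball p R) := by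
    refine ⟨hqV, ?_⟩
    simp only [mem_preimage]
    rw [hptq]
    exact Metric.mem_ball_self hR
  have hineq : ∀ w ∈ V ∩ (fun w : ℝ × ℝ => pt w.1 w.2 (u w)) ⁻¹' (Metric.ball p R),
      0 ≤ σ * (u w - p 2) := by
    rintro w ⟨hw, hwR⟩
    have h0 : (pt w.1 w.2 (u w)) 0 = w.1 := by simp [pt]
    have h1 : (pt w.1 w.2 (u w)) 1 = w.2 := by simp [pt]
    have h2 : (pt w.1 w.2 (u w)) 2 = u w := by simp [pt]
    have hS : pt w.1 w.2 (u w) ∈ S := by
      rw [hgr (pt w.1 w.2 (u w)) (by rw [h0, h1]; exact hw) (by rw [h2]; exact hur w hw)]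
      rw [h0, h1, h2]
    have := hside _ hS (Metric.mem_ball.1 hwR)
    rw [h2] at this
    exact this
  -- the strong maximum principle
  obtain ⟨r1, hr1, hconst⟩ : ∃ r1 : ℝ, 0 < r1 ∧ ∀ x : ℝ × ℝ, dist x q < r1 → u x = u q := by
    rcases hσ with rfl | rfl
    · refine hSMX u _ q hV' hqV' (hu.mono inter_subset_left) ?_
        (fun x hx => hpde x hx.1)
      intro x hx
      have := hineq x hx
      rw [huq]
      linarith
    · obtain ⟨r1, hr1, h⟩ := hSMX (fun w => - u w) _ q hV' hqV' (hu.mono inter_subset_left).neg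
        (by
          intro x hx
          have := hineq x hx
          show - u q ≤ - u x
          rw [huq]
          linarith)
        (by
          intro x hx
          have := hpde x hx.1
          rw [hpl_D1n, hpl_D2n, hpl_D1n, hpl_D2n, hpl_D2n]
          linear_combination - this)
      exact ⟨r1, hr1, fun x hx => neg_injective (h x hx)⟩
  obtain ⟨ε, hε, hball⟩ := Metric.isOpen_iff.1 hV q hqV
  refine ⟨min r (min r1 ε), lt_min hr (lt_min hr1 hε), ?_⟩
  intro x hx
  have hx1 : dist x p < r := lt_of_lt_of_le hx (min_le_left _ _)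
  have hx2 : dist x p < r1 := lt_of_lt_of_le hx ((min_le_right _ _).trans (min_le_left _ _))
  have hx3 : dist x p < ε := lt_of_lt_of_le hx ((min_le_right _ _).trans (min_le_right _ _))
  have hd : dist ((x 0, x 1) : ℝ × ℝ) q ≤ dist x p := by
    rw [hq, Prod.dist_eq, Real.dist_eq, Real.dist_eq]
    exact max_le (hpl_coord x p 0) (hpl_coord x p 1)
  have hxV : ((x 0, x 1) : ℝ × ℝ) ∈ V := hball (Metric.mem_ball.2 (lt_of_le_of_lt hd hx3))
  rw [hgr x hxV (lt_of_le_of_lt (hpl_coord x p 2) hx1),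
    hconst (x 0, x 1) (lt_of_le_of_lt hd hx2), huq]

end Pool.Agent.Helper70.MC
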