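import Mathlib
import Pool.Agent.Helper69.MC.StC

/-!
# Project MC, module ST1: push a curve which avoids `S` out of the cells `A 0` and `A 1`
-/

set_option autoImplicit false

open Set Topology Filter MeasureTheory
open Pool.Agent.Helper31.CY Pool.Agent.Helper69.MF Pool.Agent.Helper69.MC

namespace Pool.Agent.Helper70.MC

/-- retraction onto a compact part of the interior of a convex body -/
lemma st1_ret (hGAU : StGAU) (K : Set (ℝ × ℝ)) (hK : CB K) (C : Set unitInterval) (hC : IsClosed C)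
    (f : unitInterval → ℝ × ℝ) (hf : Continuous f) (hCf : ∀ s ∈ C, f s ∈ interior K) :
    ∃ ρ : ℝ × ℝ → ℝ × ℝ, Continuous ρ ∧ (∀ y, ρ y ∈ interior K) ∧ ∀ s ∈ C, ρ (f s) = f s := by
  obtain ⟨o, ho⟩ := hK.2.2
  obtain ⟨G, hGc, hG0, -, hGi, hGh⟩ := hGAU K o hK ho
  obtain ⟨c, hc0, hc1, hcC⟩ : ∃ c : ℝ, 0 < c ∧ c < 1 ∧ ∀ s ∈ C, G (f s) ≤ c := by
    rcases C.eq_empty_or_nonempty with hE | hE
    · exact ⟨1 / 2, by norm_num, by norm_num, fun s hs => by simp [hE] at hs⟩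
    · obtain ⟨s0, hs0, hmax⟩ := hC.isCompact.exists_isMaxOn hE
        ((hGc.comp hf).continuousOn (s := C))
      have h1 : G (f s0) < 1 := (hGi _).2 (hCf s0 hs0)
      refine ⟨(G (f s0) + 1) / 2, by linarith [hG0 (f s0)], by linarith, fun s hs => ?_⟩
      have h2 : G (f s) ≤ G (f s0) := hmax hs
      linarith
  have hm : ∀ y, 0 < max (G y) c := fun y => lt_of_lt_of_le hc0 (le_max_right _ _)
  refine ⟨fun y => o + (c / max (G y) c) • (y - o), ?_, ?_, ?_⟩
  · have h1 : Continuous (fun y => c / max (G y) c) :=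
      continuous_const.div (hGc.max continuous_const) (fun y => (hm y).ne')
    exact continuous_const.add (h1.smul (continuous_id.sub continuous_const))
  · intro y
    rw [← hGi, hGh y _ (div_nonneg hc0.le (hm y).le)]
    have h1 : c / max (G y) c * G y ≤ c := by
      rw [div_mul_eq_mul_div, div_le_iff₀ (hm y)]
      exact mul_le_mul_of_nonneg_left (le_max_left _ _) hc0.le
    linarith
  · intro s hs
    have h1 : max (G (f s)) c = c := max_eq_right (hcC s hs)
    show o + (c / max (G (f s)) c) • (f s - o) = f s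
    rw [h1, div_self hc0.ne', one_smul]
    abel

lemma st1_pt_self (x : E3) : pt (x 0) (x 1) (x 2) = x := by
  ext i
  fin_cases i <;> simp [pt]

lemma st1_pt0 (a b c : ℝ) : (pt a b c) 0 = a := by simp [pt]
lemma st1_pt1 (a b c : ℝ) : (pt a b c) 1 = b := by simp [pt]
lemma st1_pt2 (a b c : ℝ) : (pt a b c) 2 = c := by simp [pt]

lemma st1_ptc {X : Type} [TopologicalSpace X] (a b c : X → ℝ) (ha : Continuous a)
    (hb : Continuous b) (hc : Continuous c) : Continuous (fun x => pt (a x) (b x) (c x)) := by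
  unfold pt
  apply (PiLp.continuous_toLp 2 (fun _ : Fin 3 => ℝ)).comp
  rw [continuous_pi_iff]
  intro i
  fin_cases i
  · exact ha
  · exact hb
  · exact hc

/-- a point which is not in the frontier of a closed set -/
lemma st1_fr (K : Set (ℝ × ℝ)) (hK : IsClosed K) (y : ℝ × ℝ) (hy : y ∉ frontier K) :
    y ∈ interior K ∨ y ∉ K := by
  by_cases h : y ∈ K
  · left
    by_contra h2
    exact hy (by rw [hK.frontier_eq]; exact ⟨h, h2⟩)
  · exact Or.inr h

theorem hST1 : StGAU → StST1 := by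
  classical
  intro hGAU K0 K1 h S A h0 hK0 hK1 hMPS hsl hCells γ hγ hγS
  obtain ⟨hγc, hγ01, hγΓ⟩ := hγ
  obtain ⟨hAo, hAd, hAU, -, hA0, hA1, hA2, -⟩ := hCells
  have hK0c : IsClosed K0 := hK0.1.isClosed
  have hK1c : IsClosed K1 := hK1.1.isClosed
  have hAS : ∀ i, ∀ x ∈ A i, 0 < x 2 ∧ x 2 < h := by
    intro i x hx
    have h1 : x ∈ ⋃ i, A i := mem_iUnion.2 ⟨i, hx⟩
    rw [hAU] at h1
    exact h1.1
  have hdj : ∀ i j, i ≠ j → ∀ x, x ∈ A i → x ∈ A j → False := fun i j hij x hi hj =>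
    Set.disjoint_left.1 (hAd i j hij) hi hj
  -- points of the closure which are not in the open sets
  have hcl : ∀ i, ∀ x ∈ closure (A i), 0 ≤ x 2 ∧ x 2 ≤ h := by
    intro i x hx
    have hc : Continuous (fun w : E3 => w 2) := by fun_prop
    have h1 : IsClosed {w : E3 | 0 ≤ w 2 ∧ w 2 ≤ h} :=
      (isClosed_le continuous_const hc).inter (isClosed_le hc continuous_const)
    have h2 : A i ⊆ {w : E3 | 0 ≤ w 2 ∧ w 2 ≤ h} := fun w hw =>
      ⟨(hAS i w hw).1.le, (hAS i w hw).2.le⟩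
    exact closure_minimal h2 h1 hx
  have hnear : ∀ i j, i ≠ j → ∀ x ∈ closure (A i),
      (∃ r : ℝ, 0 < r ∧ ∀ y ∈ Sl h, dist y x < r → y ∈ A j) → False := by
    intro i j hij x hx hr
    obtain ⟨r, hr, h1⟩ := hr
    obtain ⟨y, hy, hyx⟩ := Metric.mem_closure_iff.1 hx r hr
    exact hdj i j hij y hy (h1 y (hAS i y hy) (by rw [dist_comm]; exact hyx))
  have hmid : ∀ i, ∀ x ∈ closure (A i), x ∉ A i → x ∉ S → x 2 = 0 ∨ x 2 = h := by
    intro i x hx hxi hxS
    by_contra hcon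
    push Not at hcon
    have h1 := hcl i x hx
    have h2 : x ∈ Sl h := ⟨lt_of_le_of_ne h1.1 (Ne.symm hcon.1), lt_of_le_of_ne h1.2 hcon.2⟩
    have h3 : x ∈ ⋃ i, A i := by rw [hAU]; exact ⟨h2, hxS⟩
    obtain ⟨j, hj⟩ := mem_iUnion.1 h3
    have hij : i ≠ j := fun e => hxi (e ▸ hj)
    obtain ⟨y, hyj, hyi⟩ := mem_closure_iff.1 hx (A j) (hAo j).1 hj
    exact hdj i j hij y hyi hyj
  have hG0 : ∀ x : E3, x ∉ Gm K0 K1 h → x 2 = 0 → (x 0, x 1) ∈ interior K0 ∨ (x 0, x 1) ∉ K0 := by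
    intro x hx hx2
    exact st1_fr K0 hK0c _ (fun hf => hx (Or.inl ⟨hf, hx2⟩))
  have hG1 : ∀ x : E3, x ∉ Gm K0 K1 h → x 2 = h → (x 0, x 1) ∈ interior K1 ∨ (x 0, x 1) ∉ K1 := by
    intro x hx hx2
    exact st1_fr K1 hK1c _ (fun hf => hx (Or.inr ⟨hf, hx2⟩))
  have hB0 : ∀ x ∈ closure (A 0), x ∉ A 0 → x ∉ S → x ∉ Gm K0 K1 h →
      x 2 = 0 ∧ (x 0, x 1) ∈ K0 := by
    intro x hx hxi hxS hxG
    rcases hmid 0 x hx hxi hxS with h2 | h2
    · refine ⟨h2, ?_⟩
      by_contra hK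
      exact hnear 0 2 (by decide) x hx (hA2 x (Or.inl ⟨hK, h2⟩))
    · exfalso
      rcases hG1 x hxG h2 with hK | hK
      · exact hnear 0 1 (by decide) x hx (hA1 x hK h2)
      · exact hnear 0 2 (by decide) x hx (hA2 x (Or.inr ⟨hK, h2⟩))
  have hB1 : ∀ x ∈ closure (A 1), x ∉ A 1 → x ∉ S → x ∉ Gm K0 K1 h →
      x 2 = h ∧ (x 0, x 1) ∈ K1 := by
    intro x hx hxi hxS hxG
    rcases hmid 1 x hx hxi hxS with h2 | h2
    · exfalso
      rcases hG0 x hxG h2 with hK | hK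
      · exact hnear 1 0 (by decide) x hx (hA0 x hK h2)
      · exact hnear 1 2 (by decide) x hx (hA2 x (Or.inl ⟨hK, h2⟩))
    · refine ⟨h2, ?_⟩
      by_contra hK
      exact hnear 1 2 (by decide) x hx (hA2 x (Or.inr ⟨hK, h2⟩))
  -- the retractions
  have hc0 : Continuous (fun s => γ s 0) := by fun_prop
  have hc1 : Continuous (fun s => γ s 1) := by fun_prop
  have hc2 : Continuous (fun s => γ s 2) := by fun_prop
  have hpr : Continuous (fun s => ((γ s 0, γ s 1) : ℝ × ℝ)) := hc0.prodMk hc1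
  obtain ⟨ρ0, hρ0c, hρ0i, hρ0⟩ := st1_ret hGAU K0 hK0 {s | γ s 2 = 0 ∧ (γ s 0, γ s 1) ∈ K0}
    ((isClosed_eq hc2 continuous_const).inter (hK0c.preimage hpr)) (fun s => (γ s 0, γ s 1)) hpr
    (by
      rintro s ⟨hs2, hsK⟩
      rcases hG0 (γ s) (hγΓ s) hs2 with hK | hK
      · exact hK
      · exact absurd hsK hK)
  obtain ⟨ρ1, hρ1c, hρ1i, hρ1⟩ := st1_ret hGAU K1 hK1 {s | γ s 2 = h ∧ (γ s 0, γ s 1) ∈ K1}
    ((isClosed_eq hc2 continuous_const).inter (hK1c.preimage hpr)) (fun s => (γ s 0, γ s 1)) hpr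
    (by
      rintro s ⟨hs2, hsK⟩
      rcases hG1 (γ s) (hγΓ s) hs2 with hK | hK
      · exact hK
      · exact absurd hsK hK)
  let g0 : unitInterval → E3 := fun s =>
    pt (ρ0 (γ s 0, γ s 1)).1 (ρ0 (γ s 0, γ s 1)).2 0
  let g1 : unitInterval → E3 := fun s =>
    pt (ρ1 (γ s 0, γ s 1)).1 (ρ1 (γ s 0, γ s 1)).2 h
  have hg0c : Continuous g0 :=
    st1_ptc _ _ _ (continuous_fst.comp (hρ0c.comp hpr)) (continuous_snd.comp (hρ0c.comp hpr))
      continuous_const
  have hg1c : Continuous g1 :=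
    st1_ptc _ _ _ (continuous_fst.comp (hρ1c.comp hpr)) (continuous_snd.comp (hρ1c.comp hpr))
      continuous_const
  let γ' : unitInterval → E3 := fun s => if γ s ∈ A 0 then g0 s else if γ s ∈ A 1 then g1 s else γ s
  have e0 : ∀ s, γ s ∈ A 0 → γ' s = g0 s := fun s hs => if_pos hs
  have e1 : ∀ s, γ s ∈ A 1 → γ' s = g1 s := by
    intro s hs
    have h1 : γ s ∉ A 0 := fun h2 => hdj 0 1 (by decide) _ h2 hs
    show (if γ s ∈ A 0 then g0 s else if γ s ∈ A 1 then g1 s else γ s) = g1 s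
    rw [if_neg h1, if_pos hs]
  have e2 : ∀ s, γ s ∉ A 0 → γ s ∉ A 1 → γ' s = γ s := by
    intro s hs0 hs1
    show (if γ s ∈ A 0 then g0 s else if γ s ∈ A 1 then g1 s else γ s) = γ s
    rw [if_neg hs0, if_neg hs1]
  have f0 : ∀ s ∈ closure {s | γ s ∈ A 0}, γ' s = g0 s := by
    intro s hs
    by_cases hsA : γ s ∈ A 0
    · exact e0 s hsA
    · have hx : γ s ∈ closure (A 0) :=
        map_mem_closure hγc hs (fun t ht => ht)
      obtain ⟨h1, h2⟩ := hB0 (γ s) hx hsA (hγS s) (hγΓ s)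
      have h3 : γ s ∉ A 1 := fun h4 => by have := (hAS 1 _ h4).1; linarith
      rw [e2 s hsA h3]
      show γ s = pt (ρ0 (γ s 0, γ s 1)).1 (ρ0 (γ s 0, γ s 1)).2 0
      rw [hρ0 s ⟨h1, h2⟩]
      conv_lhs => rw [← st1_pt_self (γ s), h1]
  have f1 : ∀ s ∈ closure {s | γ s ∈ A 1}, γ' s = g1 s := by
    intro s hs
    by_cases hsA : γ s ∈ A 1
    · exact e1 s hsA
    · have hx : γ s ∈ closure (A 1) :=
        map_mem_closure hγc hs (fun t ht => ht)
      obtain ⟨h1, h2⟩ := hB1 (γ s) hx hsA (hγS s) (hγΓ s)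
      have h3 : γ s ∉ A 0 := fun h4 => by have := (hAS 0 _ h4).2; linarith
      rw [e2 s h3 hsA]
      show γ s = pt (ρ1 (γ s 0, γ s 1)).1 (ρ1 (γ s 0, γ s 1)).2 h
      rw [hρ1 s ⟨h1, h2⟩]
      conv_lhs => rw [← st1_pt_self (γ s), h1]
  have hγ'c : Continuous γ' := by
    have h1 : ContinuousOn γ' (closure {s | γ s ∈ A 0}) :=
      (hg0c.continuousOn).congr f0
    have h2 : ContinuousOn γ' (closure {s | γ s ∈ A 1}) :=
      (hg1c.continuousOn).congr f1
    have h3 : ContinuousOn γ' {s | γ s ∉ A 0 ∧ γ s ∉ A 1} :=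
      (hγc.continuousOn).congr (fun s hs => e2 s hs.1 hs.2)
    have c3 : IsClosed {s | γ s ∉ A 0 ∧ γ s ∉ A 1} :=
      ((hAo 0).1.isClosed_compl.preimage hγc).inter ((hAo 1).1.isClosed_compl.preimage hγc)
    have h12 := h1.union_of_isClosed h2 isClosed_closure isClosed_closure
    have h123 := h12.union_of_isClosed h3 (isClosed_closure.union isClosed_closure) c3
    rw [← continuousOn_univ]
    refine h123.mono (fun s _ => ?_)
    by_cases hs0 : γ s ∈ A 0
    · exact Or.inl (Or.inl (subset_closure hs0))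
    · by_cases hs1 : γ s ∈ A 1
      · exact Or.inl (Or.inr (subset_closure hs1))
      · exact Or.inr ⟨hs0, hs1⟩
  have hint0 : ∀ y ∈ interior K0, y ∉ frontier K0 := fun y hy hf => hf.2 hy
  have hint1 : ∀ y ∈ interior K1, y ∉ frontier K1 := fun y hy hf => hf.2 hy
  have hg0G : ∀ s, g0 s ∉ Gm K0 K1 h := by
    intro s hs
    rcases hs with ⟨ha, hb⟩ | ⟨ha, hb⟩
    · rw [show ((g0 s) 0, (g0 s) 1) = ρ0 (γ s 0, γ s 1) by
        show ((pt _ _ _) 0, (pt _ _ _) 1) = _
        rw [st1_pt0, st1_pt1]] at ha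
      exact hint0 _ (hρ0i _) ha
    · have h1 : (g0 s) 2 = 0 := st1_pt2 _ _ _
      rw [h1] at hb
      linarith
  have hg1G : ∀ s, g1 s ∉ Gm K0 K1 h := by
    intro s hs
    rcases hs with ⟨ha, hb⟩ | ⟨ha, hb⟩
    · have h1 : (g1 s) 2 = h := st1_pt2 _ _ _
      rw [h1] at hb
      linarith
    · rw [show ((g1 s) 0, (g1 s) 1) = ρ1 (γ s 0, γ s 1) by
        show ((pt _ _ _) 0, (pt _ _ _) 1) = _
        rw [st1_pt0, st1_pt1]] at ha
      exact hint1 _ (hρ1i _) ha
  have hSlG : ∀ x : E3, 0 < x 2 → x 2 < h → x ∉ Gm K0 K1 h := by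
    intro x hx1 hx2 hx
    rcases hx with ⟨_, hb⟩ | ⟨_, hb⟩ <;> linarith
  refine ⟨γ', ⟨fun q => (1 - (q.1 : ℝ)) • γ q.2 + (q.1 : ℝ) • γ' q.2, ?_, ?_, ?_, ?_, ?_⟩, ?_⟩
  · have hq1 : Continuous (fun q : unitInterval × unitInterval => (q.1 : ℝ)) :=
      continuous_subtype_val.comp continuous_fst
    exact ((continuous_const.sub hq1).smul (hγc.comp continuous_snd)).add
      (hq1.smul (hγ'c.comp continuous_snd))
  · intro s
    simp
  · intro s
    simp
  · intro t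
    have h1 : γ' 0 = γ' 1 := by
      show (if γ 0 ∈ A 0 then g0 0 else if γ 0 ∈ A 1 then g1 0 else γ 0) =
        (if γ 1 ∈ A 0 then g0 1 else if γ 1 ∈ A 1 then g1 1 else γ 1)
      have h2 : g0 0 = g0 1 := by
        show pt _ _ _ = pt _ _ _
        rw [hγ01]
      have h3 : g1 0 = g1 1 := by
        show pt _ _ _ = pt _ _ _
        rw [hγ01]
      rw [hγ01, h2, h3]
    show (1 - (t : ℝ)) • γ 0 + (t : ℝ) • γ' 0 = (1 - (t : ℝ)) • γ 1 + (t : ℝ) • γ' 1
    rw [hγ01, h1]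
  · rintro ⟨t, s⟩
    show (1 - (t : ℝ)) • γ s + (t : ℝ) • γ' s ∉ Gm K0 K1 h
    have ht0 : (0 : ℝ) ≤ t := t.2.1
    have ht1 : (t : ℝ) ≤ 1 := t.2.2
    by_cases hs0 : γ s ∈ A 0
    · rw [e0 s hs0]
      rcases eq_or_lt_of_le ht1 with ht | ht
      · rw [ht, sub_self, zero_smul, zero_add, one_smul]
        exact hg0G s
      · have h1 := hAS 0 _ hs0
        have h2 : ((1 - (t : ℝ)) • γ s + (t : ℝ) • g0 s) 2 = (1 - t) * γ s 2 := by
          have h3 : (g0 s) 2 = 0 := st1_pt2 _ _ _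
          simp only [PiLp.add_apply, PiLp.smul_apply, smul_eq_mul]
          rw [h3]
          ring
        apply hSlG
        · rw [h2]
          exact mul_pos (by linarith) h1.1
        · rw [h2]
          nlinarith [h1.1, h1.2]
    · by_cases hs1 : γ s ∈ A 1
      · rw [e1 s hs1]
        rcases eq_or_lt_of_le ht1 with ht | ht
        · rw [ht, sub_self, zero_smul, zero_add, one_smul]
          exact hg1G s
        · have h1 := hAS 1 _ hs1
          have h2 : ((1 - (t : ℝ)) • γ s + (t : ℝ) • g1 s) 2 = (1 - t) * γ s 2 + t * h := by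
            have h3 : (g1 s) 2 = h := st1_pt2 _ _ _
            simp only [PiLp.add_apply, PiLp.smul_apply, smul_eq_mul]
            rw [h3]
          apply hSlG
          · rw [h2]
            have h4 : 0 < (1 - (t : ℝ)) * γ s 2 := mul_pos (by linarith) h1.1
            have h5 : 0 ≤ (t : ℝ) * h := mul_nonneg ht0 h0.le
            linarith
          · rw [h2]
            have h4 : 0 < (1 - (t : ℝ)) * (h - γ s 2) := mul_pos (by linarith) (by linarith [h1.2])
            nlinarith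
      · rw [e2 s hs0 hs1, ← add_smul, sub_add_cancel, one_smul]
        exact hγΓ s
  · intro s
    by_cases hs0 : γ s ∈ A 0
    · rw [e0 s hs0]
      have h3 : (g0 s) 2 = 0 := st1_pt2 _ _ _
      refine ⟨fun hh => ?_, fun hh => ?_, fun hh => ?_⟩
      · have := (hAS 0 _ hh).1
        linarith
      · have := (hAS 1 _ hh).1
        linarith
      · have := (hsl _ hh (hg0G s)).1
        linarith
    · by_cases hs1 : γ s ∈ A 1
      · rw [e1 s hs1]
        have h3 : (g1 s) 2 = h := st1_pt2 _ _ _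
        refine ⟨fun hh => ?_, fun hh => ?_, fun hh => ?_⟩
        · have := (hAS 0 _ hh).2
          linarith
        · have := (hAS 1 _ hh).2
          linarith
        · have := (hsl _ hh (hg1G s)).2
          linarith
      · rw [e2 s hs0 hs1]
        exact ⟨hs0, hs1, hγS s⟩

end Pool.Agent.Helper70.MC
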